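import Pool.Agent.Results.MP_234305_co.ApexGenusSums

/-!
The earlier hand-in on graphs of bounded Euler genus is the case of a single piece without apices.
-/

open Pool.Agent.Lib.MP_234305_co.Sums in
theorem Pool.Agent.Variants.MP_234305_co.boundedGenus (γ : ℕ) (ε : ℝ) (hε : 0 < ε) :
    ∃ C : ℝ, ∀ (n : ℕ) (G : SimpleGraph (Fin n)), G.Connected → EulerGenusLE G γ →
      ∃ (d k : ℕ) (A : Fin k → Fin d → ℝ) (b : Fin k → ℝ)
        (π : (Fin d → ℝ) →ᵃ[ℝ] (Sym2 (Fin n) → ℝ)),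
        π '' {y : Fin d → ℝ | ∀ i : Fin k, ∑ j : Fin d, A i j * y j ≤ b i} =
          convexHull ℝ {x : Sym2 (Fin n) → ℝ | ∃ T : SimpleGraph (Fin n),
            T ≤ G ∧ T.IsTree ∧ x = T.edgeSet.indicator (fun _ => (1 : ℝ))} ∧
        (k : ℝ) ≤ C * (n : ℝ) ^ (1 + ε) := by
  obtain ⟨C, h⟩ := Pool.Agent.Results.MP_234305_co.ApexGenusSums.result 0 γ ε hε
  exact ⟨C, fun n G h1 h2 => h n G h1 (.piece ⟨fun a _ _ => Finset.mem_univ a, .inr
    ⟨n, G, .refl _, h1, h2, fun i => Finset.mem_univ _, by simp, fun _ _ h => h⟩⟩)⟩
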