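import Pool.Agent.Lib.MP_234305_co.V33.Main

namespace Pool.Agent.Variants.MP_234305_co.VirtualAllGraphs

/-- For every connected `n`-vertex graph, `STP(G) + Q = R` where both `Q` and `R` have extended
formulations with `O(n^2 log^4 n)` inequalities. -/
theorem result : ∃ C : ℕ, ∀ (n : ℕ) (G : SimpleGraph (Fin n)), G.Connected →
    ∃ Q R : Set (Sym2 (Fin n) → ℝ), Q.Nonempty ∧ Bornology.IsBounded Q ∧
      R = {z | ∃ p ∈ convexHull ℝ {x : Sym2 (Fin n) → ℝ | ∃ T : SimpleGraph (Fin n),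
        T ≤ G ∧ T.IsTree ∧ x = T.edgeSet.indicator (fun _ => (1 : ℝ))}, ∃ q ∈ Q, z = p + q} ∧
      ∀ S : Set (Sym2 (Fin n) → ℝ), S = Q ∨ S = R →
        ∃ (d k : ℕ) (A : Fin k → Fin d → ℝ) (b : Fin k → ℝ)
          (π : (Fin d → ℝ) →ᵃ[ℝ] (Sym2 (Fin n) → ℝ)),
          π '' {y : Fin d → ℝ | ∀ i : Fin k, ∑ j : Fin d, A i j * y j ≤ b i} = S ∧
          k ≤ C * n ^ 2 * (Nat.log 2 n + 1) ^ 4 := by
  obtain ⟨C, hC⟩ := Lib.MP_234305_co.V33.decAll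
  refine ⟨200000 * C, fun n G hG => ?_⟩
  obtain ⟨v⟩ := hG.nonempty
  exact Lib.MP_234305_co.V33.main G hG v (hC n G v)

end Pool.Agent.Variants.MP_234305_co.VirtualAllGraphs
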